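import Pool.Agent.Helper26.HI.Defs

/-!
# HI, block RS: the resolvents
-/

set_option autoImplicit false

namespace Pool.Agent.Helper26.HI

open MvPolynomial

noncomputable section

/-- Extension of a ring homomorphism into `ℂ` to an integral extension. -/
theorem extend_hom44 {A B : Type} [CommRing A] [CommRing B] [Algebra A B] [Algebra.IsIntegral A B]
    (hinj : Function.Injective (algebraMap A B)) (f : A →+* ℂ) : ∃ φ : B →+* ℂ, ∀ a, φ (algebraMap A B a) = f a := by
  have hpr : (RingHom.ker f).IsPrime := RingHom.ker_isPrime f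
  obtain ⟨Q, _, hQ, hQc⟩ := Ideal.exists_ideal_over_prime_of_isIntegral (S := B) (RingHom.ker f) ⊥
    (by
      rw [← RingHom.ker_eq_comap_bot, (RingHom.injective_iff_ker_eq_bot _).1 hinj]
      exact bot_le)
  have hle : RingHom.ker f ≤ Q.comap (algebraMap A B) := hQc.ge
  let g : (A ⧸ RingHom.ker f) →+* (B ⧸ Q) := Ideal.quotientMap Q (algebraMap A B) hle
  have hg : Function.Injective g := by
    apply Ideal.quotientMap_injective'
    exact hQc.le
  let f' : (A ⧸ RingHom.ker f) →+* ℂ := RingHom.kerLift f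
  have hf' : Function.Injective f' := RingHom.kerLift_injective f
  let a1 : Algebra (A ⧸ RingHom.ker f) (B ⧸ Q) := g.toAlgebra
  let a2 : Algebra (A ⧸ RingHom.ker f) ℂ := f'.toAlgebra
  have i1 : IsDomain (A ⧸ RingHom.ker f) := Ideal.Quotient.isDomain _
  have i2 : IsDomain (B ⧸ Q) := Ideal.Quotient.isDomain _
  have i3 : Module.IsTorsionFree (A ⧸ RingHom.ker f) (B ⧸ Q) := Module.isTorsionFree_iff_algebraMap_injective.2 hg
  have i4 : Module.IsTorsionFree (A ⧸ RingHom.ker f) ℂ := Module.isTorsionFree_iff_algebraMap_injective.2 hf'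
  have i5 : Algebra.IsIntegral (A ⧸ RingHom.ker f) (B ⧸ Q) := by
    constructor
    intro x
    obtain ⟨b, rfl⟩ := Ideal.Quotient.mk_surjective x
    obtain ⟨p, hp, hpb⟩ := Algebra.IsIntegral.isIntegral (R := A) b
    refine ⟨p.map (Ideal.Quotient.mk (RingHom.ker f)), hp.map _, ?_⟩
    rw [Polynomial.eval₂_map]
    have h1 : (algebraMap (A ⧸ RingHom.ker f) (B ⧸ Q)).comp (Ideal.Quotient.mk (RingHom.ker f)) =
        (Ideal.Quotient.mk Q).comp (algebraMap A B) := by
      ext a
      rfl
    rw [h1, ← Polynomial.hom_eval₂, hpb, map_zero]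
  let ψ : (B ⧸ Q) →ₐ[A ⧸ RingHom.ker f] ℂ := IsAlgClosed.lift
  refine ⟨ψ.toRingHom.comp (Ideal.Quotient.mk Q), fun a => ?_⟩
  have h2 : Ideal.Quotient.mk Q (algebraMap A B a) =
      algebraMap (A ⧸ RingHom.ker f) (B ⧸ Q) (Ideal.Quotient.mk (RingHom.ker f) a) := rfl
  change ψ (Ideal.Quotient.mk Q (algebraMap A B a)) = f a
  rw [h2, ψ.commutes]
  exact RingHom.kerLift_mk f a

/-- The product of the linear factors. -/
def gm44 {B : Type} [CommRing B] (J : Multiset B) : Polynomial B :=
  (J.map fun b => Polynomial.X - Polynomial.C b).prod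

theorem gm44_monic {B : Type} [CommRing B] (J : Multiset B) : (gm44 J).Monic :=
  Polynomial.monic_multiset_prod_of_monic _ _ fun b _ => Polynomial.monic_X_sub_C b

theorem gm44_natDegree {B : Type} [CommRing B] [Nontrivial B] (J : Multiset B) :
    (gm44 J).natDegree = Multiset.card J := by
  unfold gm44
  exact Polynomial.natDegree_multiset_prod_X_sub_C_eq_card J

theorem gm44_map {B C : Type} [CommRing B] [CommRing C] (φ : B →+* C) (J : Multiset B) :
    (gm44 J).map φ = gm44 (J.map φ) := by
  unfold gm44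
  rw [Polynomial.map_multiset_prod, Multiset.map_map, Multiset.map_map]
  congr 1
  refine Multiset.map_congr rfl fun b _ => ?_
  simp

theorem gm44_dvd {B : Type} [CommRing B] {J s : Multiset B} (h : J ≤ s) : gm44 J ∣ gm44 s := by
  obtain ⟨K, rfl⟩ := Multiset.le_iff_exists_add.1 h
  unfold gm44
  rw [Multiset.map_add, Multiset.prod_add]
  exact dvd_mul_right _ _

/-- A proper factor has a coefficient outside of the base ring. -/
theorem exists_coeff44 {A B : Type} [CommRing A] [IsDomain A] [CommRing B] [IsDomain B] [Algebra A B]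
    (hinj : Function.Injective (algebraMap A B)) (P : Polynomial A) (hirr : Irreducible P) (hPm : P.Monic)
    (s : Multiset B) (hs : P.map (algebraMap A B) = gm44 s) (J : Multiset B) (hJ : J ≤ s) (h0 : J ≠ 0) (h1 : J ≠ s) :
    ∃ i, (gm44 J).coeff i ∉ (algebraMap A B).range := by
  by_contra! hc
  have hl : gm44 J ∈ Polynomial.lifts (algebraMap A B) := by
    rw [Polynomial.lifts_iff_coeff_lifts]
    intro i
    exact hc i
  obtain ⟨G, hG, hGd, hGm⟩ := Polynomial.lifts_and_natDegree_eq_and_monic hl (gm44_monic J)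
  have hd : G ∣ P := by
    rw [← Polynomial.map_dvd_map (algebraMap A B) hinj hGm, hG, hs]
    exact gm44_dvd hJ
  obtain ⟨H, hH⟩ := hd
  have hHm : H.Monic := by
    rw [hH] at hPm
    exact hGm.of_mul_monic_left hPm
  have hP1 : P ≠ 1 := fun h => hirr.not_isUnit (by rw [h]; exact isUnit_one)
  have hcard : Multiset.card s = P.natDegree := by
    rw [← gm44_natDegree s, ← hs, hPm.natDegree_map]
  rcases (Polynomial.irreducible_of_monic hPm hP1).1 hirr G H hGm hHm hH.symm with h | h
  · rw [h, Polynomial.natDegree_one, gm44_natDegree] at hGd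
    exact h0 (Multiset.card_eq_zero.1 hGd.symm)
  · rw [h, mul_one] at hH
    rw [← hH, gm44_natDegree, ← hcard] at hGd
    exact h1 (Multiset.eq_of_le_of_card_le hJ hGd.le)

theorem exists_le_map44 {B C : Type} (φ : B → C) (s : Multiset B) (J' : Multiset C) (h : J' ≤ s.map φ) :
    ∃ J ≤ s, J.map φ = J' := by
  have h1 : J' ∈ Multiset.powersetCard (Multiset.card J') (s.map φ) := Multiset.mem_powersetCard.2 ⟨h, rfl⟩
  rw [Multiset.powersetCard_map, Multiset.mem_map] at h1
  obtain ⟨J, hJ, rfl⟩ := h1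
  exact ⟨J, (Multiset.mem_powersetCard.1 hJ).1, rfl⟩

/-- The integral closure in an algebraic closure of the fraction field. -/
abbrev BB44 (A : Type) [CommRing A] [IsDomain A] : Type := integralClosure A (AlgebraicClosure (FractionRing A))

theorem BB44_inj (A : Type) [CommRing A] [IsDomain A] : Function.Injective (algebraMap A (BB44 A)) := by
  have h : Function.Injective (algebraMap A (AlgebraicClosure (FractionRing A))) := by
    rw [IsScalarTower.algebraMap_eq A (FractionRing A) (AlgebraicClosure (FractionRing A))]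
    exact (algebraMap (FractionRing A) (AlgebraicClosure (FractionRing A))).injective.comp
      (IsFractionRing.injective A (FractionRing A))
  intro x y hxy
  apply h
  have := congrArg (algebraMap (BB44 A) (AlgebraicClosure (FractionRing A))) hxy
  rwa [← IsScalarTower.algebraMap_apply, ← IsScalarTower.algebraMap_apply] at this

theorem exists_split44 (A : Type) [CommRing A] [IsDomain A] (P : Polynomial A) (hPm : P.Monic) :
    ∃ s : Multiset (BB44 A), P.map (algebraMap A (BB44 A)) = gm44 s := by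
  set Ω := AlgebraicClosure (FractionRing A)
  have h1 : P.map (algebraMap A Ω) = gm44 (P.map (algebraMap A Ω)).roots :=
    (IsAlgClosed.splits (P.map (algebraMap A Ω))).eq_prod_roots_of_monic (hPm.map _)
  have h2 : ∀ x ∈ (P.map (algebraMap A Ω)).roots, x ∈ integralClosure A Ω := by
    intro x hx
    rw [Polynomial.mem_roots (hPm.map _).ne_zero, Polynomial.IsRoot.def, Polynomial.eval_map] at hx
    exact ⟨P, hPm, hx⟩
  obtain ⟨s, hs⟩ : ∃ s : Multiset (BB44 A), s.map (algebraMap (BB44 A) Ω) = (P.map (algebraMap A Ω)).roots := by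
    generalize (P.map (algebraMap A Ω)).roots = m at h2
    clear h1
    induction m using Multiset.induction_on with
    | empty => exact ⟨0, rfl⟩
    | cons a m ih =>
      obtain ⟨s, hs⟩ := ih fun x hx => h2 x (Multiset.mem_cons_of_mem hx)
      refine ⟨⟨a, h2 a (Multiset.mem_cons_self a m)⟩ ::ₘ s, ?_⟩
      rw [Multiset.map_cons, hs]
      rfl
  refine ⟨s, ?_⟩
  have hinj : Function.Injective (algebraMap (BB44 A) Ω) := Subtype.val_injective
  apply Polynomial.map_injective _ hinj
  rw [gm44_map, hs, ← h1, Polynomial.map_map, ← IsScalarTower.algebraMap_eq]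

/-- **RS**: the resolvents -/
theorem resolvents {r : ℕ} (P : Polynomial (MvPolynomial (Fin r) ℤ)) (hPm : P.Monic) (hirr : Irreducible P) :
    ∃ S : Finset (Polynomial (MvPolynomial (Fin r) ℤ)),
      (∀ Q ∈ S, Q.Monic ∧ Irreducible Q ∧ 2 ≤ Q.natDegree) ∧
      ∀ t : Fin r → ℤ, (∀ Q ∈ S, ∀ x : ℤ, V Q t x ≠ 0) → Irreducible (P.map (eval t)) := by
  classical
  obtain ⟨s, hs⟩ := exists_split44 (MvPolynomial (Fin r) ℤ) P hPm
  have hinj := BB44_inj (MvPolynomial (Fin r) ℤ)
  have hex : ∀ J : Multiset (BB44 (MvPolynomial (Fin r) ℤ)), ∃ i, (J ≤ s → J ≠ 0 → J ≠ s →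
      (gm44 J).coeff i ∉ (algebraMap (MvPolynomial (Fin r) ℤ) (BB44 (MvPolynomial (Fin r) ℤ))).range) := by
    intro J
    by_cases h : J ≤ s ∧ J ≠ 0 ∧ J ≠ s
    · obtain ⟨i, hi⟩ := exists_coeff44 hinj P hirr hPm s hs J h.1 h.2.1 h.2.2
      exact ⟨i, fun _ _ _ => hi⟩
    · exact ⟨0, fun h1 h2 h3 => absurd ⟨h1, h2, h3⟩ h⟩
  choose i hi using hex
  set Qf : Multiset (BB44 (MvPolynomial (Fin r) ℤ)) → Polynomial (MvPolynomial (Fin r) ℤ) := fun J =>
    minpoly (MvPolynomial (Fin r) ℤ) ((gm44 J).coeff (i J)) with hQf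
  have hcard : Multiset.card s = P.natDegree := by
    rw [← gm44_natDegree s, ← hs, hPm.natDegree_map]
  have hP1 : P ≠ 1 := fun h => hirr.not_isUnit (by rw [h]; exact isUnit_one)
  have hPd : 0 < P.natDegree := Nat.pos_of_ne_zero fun h => hP1 (hPm.natDegree_eq_zero.1 h)
  refine ⟨((s.powerset.filter fun J => J ≠ 0 ∧ J ≠ s).map Qf).toFinset, ?_, ?_⟩
  · intro Q hQ
    rw [Multiset.mem_toFinset, Multiset.mem_map] at hQ
    obtain ⟨J, hJ, rfl⟩ := hQ
    rw [Multiset.mem_filter, Multiset.mem_powerset] at hJ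
    obtain ⟨h1, h2, h3⟩ := hJ
    have hint : IsIntegral (MvPolynomial (Fin r) ℤ) ((gm44 J).coeff (i J)) := Algebra.IsIntegral.isIntegral _
    refine ⟨minpoly.monic hint, minpoly.irreducible hint, ?_⟩
    by_contra! hlt
    have hpos : 0 < (minpoly (MvPolynomial (Fin r) ℤ) ((gm44 J).coeff (i J))).natDegree := minpoly.natDegree_pos hint
    have h4 : (minpoly (MvPolynomial (Fin r) ℤ) ((gm44 J).coeff (i J))).degree = 1 := by
      rw [Polynomial.degree_eq_natDegree (minpoly.monic hint).ne_zero]
      have : (minpoly (MvPolynomial (Fin r) ℤ) ((gm44 J).coeff (i J))).natDegree = 1 := by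
        have : (Qf J).natDegree < 2 := hlt
        change (minpoly (MvPolynomial (Fin r) ℤ) ((gm44 J).coeff (i J))).natDegree < 2 at this
        omega
      rw [this]; rfl
    exact hi J h1 h2 h3 (minpoly.mem_range_of_degree_eq_one _ _ h4)
  · intro t ht
    have hm : (P.map (eval t)).Monic := hPm.map _
    have hd : (P.map (eval t)).natDegree = P.natDegree := hPm.natDegree_map _
    have h1 : P.map (eval t) ≠ 1 := fun h => by
      rw [h, Polynomial.natDegree_one] at hd
      omega
    rw [Polynomial.irreducible_of_monic hm h1]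
    intro u v hu hv huv
    by_contra! hc
    obtain ⟨hu1, hv1⟩ := hc
    have hud : 0 < u.natDegree := Nat.pos_of_ne_zero fun h => hu1 (hu.natDegree_eq_zero.1 h)
    have hvd : 0 < v.natDegree := Nat.pos_of_ne_zero fun h => hv1 (hv.natDegree_eq_zero.1 h)
    have hsum : u.natDegree + v.natDegree = P.natDegree := by
      rw [← hd, ← huv, hu.natDegree_mul hv]
    obtain ⟨φ, hφ⟩ := extend_hom44 hinj ((Int.castRingHom ℂ).comp (eval t))
    have hφc : φ.comp (algebraMap (MvPolynomial (Fin r) ℤ) (BB44 (MvPolynomial (Fin r) ℤ))) =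
        (Int.castRingHom ℂ).comp (eval t) := RingHom.ext hφ
    have hC : (P.map (eval t)).map (Int.castRingHom ℂ) = gm44 (s.map φ) := by
      rw [Polynomial.map_map, ← hφc, ← Polynomial.map_map, hs, gm44_map]
    have hUd : u.map (Int.castRingHom ℂ) ∣ gm44 (s.map φ) := by
      rw [← hC, ← huv, Polynomial.map_mul]
      exact dvd_mul_right _ _
    have hUm : (u.map (Int.castRingHom ℂ)).Monic := hu.map _
    have hUs : u.map (Int.castRingHom ℂ) = gm44 (u.map (Int.castRingHom ℂ)).roots :=
      (IsAlgClosed.splits _).eq_prod_roots_of_monic hUm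
    have hroots : (u.map (Int.castRingHom ℂ)).roots ≤ s.map φ := by
      have h2 := Polynomial.roots.le_of_dvd (gm44_monic (s.map φ)).ne_zero hUd
      have h3 : (gm44 (s.map φ)).roots = s.map φ := by
        unfold gm44
        exact Polynomial.roots_multiset_prod_X_sub_C _
      rwa [h3] at h2
    obtain ⟨J, hJs, hJ⟩ := exists_le_map44 φ s _ hroots
    have hUJ : u.map (Int.castRingHom ℂ) = (gm44 J).map φ := by
      rw [gm44_map, hJ]; exact hUs
    have hcJ : Multiset.card J = u.natDegree := by
      rw [← Multiset.card_map φ J, ← gm44_natDegree (J.map φ), ← gm44_map, ← hUJ, hu.natDegree_map]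
    have hJ0 : J ≠ 0 := by
      rintro rfl
      rw [Multiset.card_zero] at hcJ
      omega
    have hJ1 : J ≠ s := by
      rintro rfl
      omega
    refine ht (Qf J) ?_ (u.coeff (i J)) ?_
    · rw [Multiset.mem_toFinset, Multiset.mem_map]
      exact ⟨J, by rw [Multiset.mem_filter, Multiset.mem_powerset]; exact ⟨hJs, hJ0, hJ1⟩, rfl⟩
    · have h5 : ((V (Qf J) t (u.coeff (i J)) : ℤ) : ℂ) = 0 := by
        unfold V
        have h6 : (Int.castRingHom ℂ) (((Qf J).map (eval t)).eval (u.coeff (i J))) =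
            ((Qf J).map ((Int.castRingHom ℂ).comp (eval t))).eval ((Int.castRingHom ℂ) (u.coeff (i J))) := by
          rw [← Polynomial.map_map, Polynomial.eval_map_apply]
        have h7 : (Int.castRingHom ℂ) (u.coeff (i J)) = φ ((gm44 J).coeff (i J)) := by
          rw [← Polynomial.coeff_map, ← Polynomial.coeff_map, hUJ]
        rw [show ((((Qf J).map (eval t)).eval (u.coeff (i J)) : ℤ) : ℂ) =
          (Int.castRingHom ℂ) (((Qf J).map (eval t)).eval (u.coeff (i J))) from rfl, h6, h7, ← hφc,
          ← Polynomial.map_map, Polynomial.eval_map_apply, Polynomial.eval_map]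
        have h8 := minpoly.aeval (MvPolynomial (Fin r) ℤ) ((gm44 J).coeff (i J))
        rw [Polynomial.aeval_def] at h8
        change φ (Polynomial.eval₂ _ _ (minpoly _ _)) = 0
        rw [h8, map_zero]
      exact_mod_cast h5

end

end Pool.Agent.Helper26.HI
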